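import Pool.Agent.Helper58.LC.Goals

/-!
# Project LC, packet TYP
-/

set_option autoImplicit false

open Classical Finset

namespace Pool.Agent.Helper85.LC.TYP

open Pool.Agent.Helper58.LC

theorem t (h : CMP) : TYP := by
  intro I J c R l a b r e s hes hNb hr hra hX hla
  -- `l` is not in `R`
  have hlR : l ∉ R := by
    intro hl
    obtain ⟨_, _, h1, h2, h3⟩ := hNb ((e + s) / 2) (by linarith) (by linarith)
    rcases h3 l hl (fun h' => by rw [h'] at h1; exact lt_irrefl _ h1)
      (fun h' => by rw [h'] at h2; exact lt_irrefl _ h2) with h4 | h4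
    · exact lt_asymm h1 h4
    · exact lt_asymm h2 h4
  have haR : a ∈ R := (hNb ((e + s) / 2) (by linarith) (by linarith)).1
  have hne_la : l ≠ a := fun h' => hlR (h' ▸ haR)
  have hne_lr : l ≠ r := fun h' => hlR (h' ▸ hr)
  have heq : c.ln a e = c.ln r e := (h I J c e a r (Ne.symm hra)).2.1.2 hX.symm
  -- `l` is below `a` at `e`
  have hle : c.ln l e < c.ln a e := by
    by_contra hcon
    rw [(h I J c e l a hne_la).1] at hcon
    push Not at hcon
    rcases lt_trichotomy (c.α l) (c.α a) with hs | hs | hs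
    · have h1 := hcon.1 hs
      have h2 : e < c.X l a := lt_of_le_of_ne h1 (Ne.symm hla)
      have h3 : e < min s (c.X l a) := lt_min hes h2
      have h4 := (hNb ((e + min s (c.X l a)) / 2) (by linarith)
        (by linarith [min_le_left s (c.X l a)])).2.2.1
      rw [(h I J c _ l a hne_la).1] at h4
      rcases h4 with h4 | h4
      · linarith [min_le_right s (c.X l a), h4.2]
      · exact lt_asymm hs h4.1
    · exact hne_la (c.slope _ _ hs)
    · have h1 := hcon.2 hs
      have h4 := (hNb ((e + s) / 2) (by linarith) (by linarith)).2.2.1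
      rw [(h I J c _ l a hne_la).1] at h4
      rcases h4 with h4 | h4
      · exact lt_asymm hs h4.1
      · linarith [h4.2]
  -- `a` is less steep than `r`
  have har : c.α a < c.α r := by
    have h1 : c.ln l e < c.ln r e := heq ▸ hle
    obtain ⟨u, heu, hus, hu⟩ : ∃ u, e < u ∧ u < s ∧ c.ln l u < c.ln r u := by
      rw [(h I J c e l r hne_lr).1] at h1
      rcases h1 with h1 | h1
      · refine ⟨(e + s) / 2, by linarith, by linarith, ?_⟩
        rw [(h I J c _ l r hne_lr).1]
        exact Or.inl ⟨h1.1, by linarith [h1.2]⟩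
      · have h3 : e < min s (c.X l r) := lt_min hes h1.2
        refine ⟨(e + min s (c.X l r)) / 2, by linarith, by linarith [min_le_left s (c.X l r)], ?_⟩
        rw [(h I J c _ l r hne_lr).1]
        exact Or.inr ⟨h1.1, by linarith [min_le_right s (c.X l r)]⟩
    obtain ⟨_, _, h3, h4, h5⟩ := hNb u heu hus
    have hrb : r ≠ b := fun h' => by rw [h'] at hu; exact lt_asymm h4 hu
    rcases h5 r hr hra hrb with h6 | h6
    · rw [(h I J c _ a r (Ne.symm hra)).1, hX] at h6
      rcases h6 with h6 | h6
      · exact h6.1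
      · exact absurd h6.2 (not_lt.2 heu.le)
    · exact absurd (hu.trans h6) (not_lt.2 h4.le)
  rcases lt_trichotomy (c.α l) (c.α a) with hs | hs | hs
  · exact ⟨some r, fun d hd => (Option.some.inj hd) ▸ hr,
      Or.inl ⟨r, hr, hra, hX, har, hs, hle, rfl⟩⟩
  · exact absurd (c.slope _ _ hs) hne_la
  · rcases lt_trichotomy (c.α l) (c.α r) with hs' | hs' | hs'
    · by_cases hemp : (R.filter fun k => c.X l k ≤ e).Nonempty
      · obtain ⟨d, hd, hmax⟩ := exists_max_image (R.filter fun k => c.X l k ≤ e) (fun k => c.X l k) hemp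
        rw [mem_filter] at hd
        refine ⟨some d, fun d' hd' => (Option.some.inj hd') ▸ hd.1,
          Or.inr (Or.inr ⟨r, hr, hra, hX, hs, hs', hle, Or.inr ⟨d, hd.1, rfl, hd.2, ?_⟩⟩)⟩
        intro k hk hke
        exact hmax k (mem_filter.2 ⟨hk, hke⟩)
      · refine ⟨none, fun d hd => absurd hd (by simp),
          Or.inr (Or.inr ⟨r, hr, hra, hX, hs, hs', hle, Or.inl ⟨rfl, ?_⟩⟩)⟩
        intro k hk
        by_contra hcon
        exact hemp ⟨k, mem_filter.2 ⟨hk, not_lt.1 hcon⟩⟩
    · exact absurd (c.slope _ _ hs') hne_lr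
    · exact ⟨some a, fun d hd => (Option.some.inj hd) ▸ haR,
        Or.inr (Or.inl ⟨r, hr, hra, hX, har, hs', hle, rfl⟩)⟩

end Pool.Agent.Helper85.LC.TYP
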